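import Mathlib

/-!
# The excedance polynomial of the even permutations of five letters is not real-rooted

`A_5^+(t) = 1 + 11 t + 36 t^2 + 11 t^3 + t^4` has no real root at all.
-/

set_option autoImplicit false

open Polynomial

namespace Pool.Agent.Results.MP_b94b02_co.EvenFive

/-- the number of excedances -/
def exc {n : ℕ} (σ : Equiv.Perm (Fin n)) : ℕ := (Finset.univ.filter fun i => i < σ i).card

/-- the number of even permutations with `k` excedances -/
def P (n k : ℕ) : ℕ :=
  (Finset.univ.filter fun σ : Equiv.Perm (Fin n) => Equiv.Perm.sign σ = 1 ∧ exc σ = k).card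

/-- the number of odd permutations with `k` excedances -/
def Q (n k : ℕ) : ℕ :=
  (Finset.univ.filter fun σ : Equiv.Perm (Fin n) => Equiv.Perm.sign σ = -1 ∧ exc σ = k).card

/-- `A_n^+` -/
noncomputable def Aplus (n : ℕ) : ℝ[X] := ∑ k ∈ Finset.range (n + 1), C (P n k : ℝ) * X ^ k

/-- `A_n^-` -/
noncomputable def Aminus (n : ℕ) : ℝ[X] := ∑ k ∈ Finset.range (n + 1), C (Q n k : ℝ) * X ^ k

/-- all complex roots are real -/
def RealRooted (p : ℝ[X]) : Prop := ∀ z : ℂ, aeval z p = 0 → z.im = 0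

theorem P50 : P 5 0 = 1 := by decide +kernel
theorem P51 : P 5 1 = 11 := by decide +kernel
theorem P52 : P 5 2 = 36 := by decide +kernel
theorem P53 : P 5 3 = 11 := by decide +kernel
theorem P54 : P 5 4 = 1 := by decide +kernel
theorem P55 : P 5 5 = 0 := by decide +kernel

theorem A5 : Aplus 5 = X ^ 4 + 11 * X ^ 3 + 36 * X ^ 2 + 11 * X + 1 := by
  unfold Aplus
  simp only [Finset.sum_range_succ, Finset.sum_range_zero, P50, P51, P52, P53, P54, P55]
  norm_num
  rw [show (C 11 : ℝ[X]) = 11 from rfl, show (C 36 : ℝ[X]) = 36 from rfl]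
  ring

theorem not_realRooted : ¬ RealRooted (Aplus 5) := by
  intro h
  have hdeg : (Aplus 5).degree ≠ 0 := by
    have : (Aplus 5).degree = 4 := by
      rw [A5]
      compute_degree!
    rw [this]
    decide
  obtain ⟨z, hz⟩ := IsAlgClosed.exists_aeval_eq_zero ℂ (Aplus 5) hdeg
  have him := h z hz
  have hzr : z = (z.re : ℂ) := Complex.ext rfl (by simpa using him)
  rw [A5] at hz
  simp only [map_add, map_mul, map_pow, aeval_X, map_ofNat, map_one] at hz
  rw [hzr] at hz
  have h2 : z.re ^ 4 + 11 * z.re ^ 3 + 36 * z.re ^ 2 + 11 * z.re + 1 = 0 := by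
    exact_mod_cast hz
  have h3 : (z.re ^ 2 + 11 / 2 * z.re + 1) ^ 2 + 15 / 4 * z.re ^ 2 = 0 := by
    linear_combination h2
  have h4 : z.re = 0 := by nlinarith [sq_nonneg (z.re ^ 2 + 11 / 2 * z.re + 1), sq_nonneg z.re]
  rw [h4] at h2
  norm_num at h2

/-- There is some `n ≥ 5` (namely `n = 5`) for which `A_n^+` or `A_n^-` is not real-rooted. -/
theorem result : ∃ n : ℕ, 5 ≤ n ∧ (¬ RealRooted (Aplus n) ∨ ¬ RealRooted (Aminus n)) :=
  ⟨5, le_rfl, Or.inl not_realRooted⟩

end Pool.Agent.Results.MP_b94b02_co.EvenFive
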